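import Pool.Agent.Helper14.TK.StA

/-!
# Project T3K, part A, module DIMT: the dimension chain for the twisted path
-/

set_option autoImplicit false

namespace Pool.Agent.Helper15.TA

open Pool.Agent.Helper14.TK Pool.Agent.Helper14.T3 Pool.Agent.Helper14.CV Pool.Agent.Helper14.W3
  Pool.Agent.Helper78.W3

/-- The image of the twisted values on the symbols of level `3^n`. -/
private noncomputable def V (D n : ℕ) : Submodule ℂ (ℕ → ℕ → ℂ) := (XS3 n).map (evT D)

/-- The image of the twisted values on the new symbols of level `3^n`. -/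
private noncomputable def W (D : ℕ) (s : ℤ) (n : ℕ) : Submodule ℂ (ℕ → ℕ → ℂ) :=
  (NSS3 n (kw s n) s).map (evT D)

private theorem V_le {D : ℕ} {s : ℤ} {dd : ℕ → ℕ} (hf : Hf D s dd) {n : ℕ} (hn : 3 ≤ n) :
    V D n ≤ V D (n - 1) ⊔ W D s n := by
  rintro x ⟨G, hG, rfl⟩
  obtain ⟨G0, G1, h0, h1, h2⟩ := hf.dec n G hn hG
  exact Submodule.mem_sup.mpr ⟨evT D G0, ⟨G0, h0, rfl⟩, evT D G1, ⟨G1, h1, rfl⟩, h2.symm⟩

private theorem W_bound {D : ℕ} {s : ℤ} {dd : ℕ → ℕ} (hf : Hf D s dd) {n : ℕ} (hn : 3 ≤ n) :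
    Module.Finite ℂ (W D s n) ∧ Module.finrank ℂ (W D s n) ≤ dd n := by
  have hD0 : D ≠ 0 := hf.d0
  obtain ⟨Θ, hΘ⟩ := hf.ub n hn
  obtain ⟨f, hfd⟩ : ∃ f : NSS3 n (kw s n) s →ₗ[ℂ] (ℕ → ℕ → ℂ),
      f = evT D ∘ₗ (NSS3 n (kw s n) s).subtype := ⟨_, rfl⟩
  have hker : LinearMap.ker Θ ≤ LinearMap.ker f := by
    intro G hG
    have h1 : EqC (G : ℤ → ℤ → ℂ) 0 := hΘ G (LinearMap.mem_ker.mp hG)
    refine LinearMap.mem_ker.mpr ?_
    rw [hfd]
    show evT D (G : ℤ → ℤ → ℂ) = 0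
    rw [evT_congr hD0 h1]
    exact map_zero (evT D)
  obtain ⟨g, hgd⟩ : ∃ g : LinearMap.range Θ →ₗ[ℂ] (ℕ → ℕ → ℂ),
      g = (Submodule.liftQ (LinearMap.ker Θ) f hker) ∘ₗ
        (Θ.quotKerEquivRange.symm).toLinearMap := ⟨_, rfl⟩
  have hgΘ : ∀ G : NSS3 n (kw s n) s, g ⟨Θ G, LinearMap.mem_range_self Θ G⟩ = f G := by
    intro G
    have h1 : Θ.quotKerEquivRange.symm ⟨Θ G, LinearMap.mem_range_self Θ G⟩ =
        (LinearMap.ker Θ).mkQ G := by
      rw [LinearEquiv.symm_apply_eq]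
      rfl
    rw [hgd]
    show (Submodule.liftQ (LinearMap.ker Θ) f hker)
      (Θ.quotKerEquivRange.symm ⟨Θ G, LinearMap.mem_range_self Θ G⟩) = f G
    rw [h1]
    rfl
  have hrange : W D s n = LinearMap.range g := by
    ext x
    constructor
    · rintro ⟨G, hG, rfl⟩
      refine ⟨⟨Θ ⟨G, hG⟩, LinearMap.mem_range_self Θ _⟩, ?_⟩
      rw [hgΘ ⟨G, hG⟩, hfd]
      rfl
    · rintro ⟨⟨y, G, rfl⟩, rfl⟩
      refine ⟨(G : ℤ → ℤ → ℂ), G.2, ?_⟩
      rw [hgΘ G, hfd]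
      rfl
  have hfin : Module.Finite ℂ (W D s n) := by
    rw [hrange]
    infer_instance
  have hrk := LinearMap.finrank_range_add_finrank_ker g
  have hle : Module.finrank ℂ (LinearMap.range Θ) ≤ dd n := by
    have := Submodule.finrank_le (LinearMap.range Θ)
    simpa using this
  refine ⟨hfin, ?_⟩
  rw [hrange]
  omega

private theorem DDg_succ (dd : ℕ → ℕ) (m : ℕ) : DDg dd (m + 1) = DDg dd m + dd (m + 1) := by
  unfold DDg
  rw [Finset.sum_range_succ]

private theorem V_bound {D : ℕ} {s : ℤ} {dd : ℕ → ℕ} (hf : Hf D s dd) (n : ℕ) (hn : 2 ≤ n) :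
    Module.Finite ℂ (V D n) ∧ Module.finrank ℂ (V D n) ≤ DDg dd n := by
  induction n, hn using Nat.le_induction with
  | base =>
    have hbot : V D 2 = ⊥ := by
      rw [eq_bot_iff]
      rintro x ⟨G, hG, rfl⟩
      exact (Submodule.mem_bot ℂ).2 (hf.bas G hG)
    rw [hbot]
    exact ⟨inferInstance, by simp⟩
  | succ m hm ih =>
    obtain ⟨ih1, ih2⟩ := ih
    have hm3 : 3 ≤ m + 1 := by omega
    obtain ⟨w1, w2⟩ := W_bound hf hm3
    have hle := V_le hf hm3
    rw [Nat.add_sub_cancel] at hle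
    have hfin : Module.Finite ℂ (V D m ⊔ W D s (m + 1) : Submodule ℂ (ℕ → ℕ → ℂ)) :=
      Submodule.finiteDimensional_sup _ _
    refine ⟨Submodule.finiteDimensional_of_le hle, ?_⟩
    have h1 := Submodule.finrank_mono hle
    have h2 := Submodule.finrank_add_le_finrank_add_finrank (V D m) (W D s (m + 1))
    have h3 := DDg_succ dd m
    omega

/-- DIMT: the dimension of the image of the twisted values. -/
theorem hDIMT : DimT := by
  intro D s dd hf m G hm hG hli H hH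
  obtain ⟨v1, v2⟩ := V_bound hf m (by omega)
  have hle : Submodule.span ℂ (Set.range fun k => evT D (G k)) ≤ V D m := by
    rw [Submodule.span_le]
    rintro x ⟨k, rfl⟩
    exact ⟨G k, hG k, rfl⟩
  have hrk : Module.finrank ℂ (V D m) ≤
      Module.finrank ℂ (Submodule.span ℂ (Set.range fun k => evT D (G k))) := by
    rw [finrank_span_eq_card hli, Fintype.card_fin]
    exact v2
  have heq := Submodule.eq_of_le_of_finrank_le hle hrk
  rw [heq]
  exact ⟨H, hH, rfl⟩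

end Pool.Agent.Helper15.TA
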